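import Pool.Agent.H6.FI.TargetsC

/-!
# Row STP of the board fi_modules (MP_7500ea_al)
-/

namespace Pool.Agent.H80.FI

open _root_.FI

theorem pf_STP : T_STP := by
  intro Γ _ _ K U M T Y _ _ q L hKU hq hk hLn hLc hL hMU hM hMT hTU
  have hLY : L ≤ (T.subgroupOf U).map q := by
    intro l hl
    obtain ⟨x, hx⟩ := hq l
    refine ⟨x, ?_, hx⟩
    exact Subgroup.mem_subgroupOf.2 (hMT ((hM x).2 (by rw [hx]; exact hl)))
  have hn : (L.subgroupOf ((T.subgroupOf U).map q)).Normal := hLn.subgroupOf _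
  let Yt : Subgroup Y := (T.subgroupOf U).map q
  let L' : Subgroup Yt := L.subgroupOf Yt
  haveI : L'.Normal := hn
  let r : T →* Yt := (q.comp (Subgroup.inclusion hTU)).codRestrict Yt
    (fun t => ⟨Subgroup.inclusion hTU t, Subgroup.mem_subgroupOf.2 t.2, rfl⟩)
  have hr : Function.Surjective r := by
    rintro ⟨y, x, hx, rfl⟩
    exact ⟨⟨(x : Γ), Subgroup.mem_subgroupOf.1 hx⟩, Subtype.ext rfl⟩
  have hk' : ∀ x : T, (QuotientGroup.mk' L').comp r x = 1 ↔ (x : Γ) ∈ M := by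
    intro x
    have h1 : (QuotientGroup.mk' L').comp r x = 1 ↔ r x ∈ L' := by
      rw [MonoidHom.comp_apply, ← MonoidHom.mem_ker, QuotientGroup.ker_mk']
    rw [h1]
    have h2 : r x ∈ L' ↔ q (Subgroup.inclusion hTU x) ∈ L := Subgroup.mem_subgroupOf
    rw [h2]
    exact (hM (Subgroup.inclusion hTU x)).symm
  have hL' : L' ≠ ⊥ := by
    intro h
    apply hL
    rw [eq_bot_iff]
    intro l hl
    have h1 : (⟨l, hLY hl⟩ : Yt) ∈ L' := Subgroup.mem_subgroupOf.2 hl
    rw [h, Subgroup.mem_bot] at h1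
    exact Subgroup.mem_bot.2 (congrArg Subtype.val h1)
  refine ⟨Yt ⧸ L', inferInstance, inferInstance, (QuotientGroup.mk' L').comp r, Yt,
    QuotientGroup.mk' L', ?_, hk', QuotientGroup.mk'_surjective L', ?_, ?_, ?_⟩
  · exact (QuotientGroup.mk'_surjective L').comp hr
  · rw [QuotientGroup.ker_mk']
    apply Group.isSolvable_of_comm
    rintro ⟨a, ha⟩ ⟨b, hb⟩
    apply Subtype.ext
    apply Subtype.ext
    exact hLc _ (Subgroup.mem_subgroupOf.1 ha) _ (Subgroup.mem_subgroupOf.1 hb)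
  · have h1 := Subgroup.card_eq_card_quotient_mul_card_subgroup L'
    have h2 : 1 < Nat.card L' := (Subgroup.one_lt_card_iff_ne_bot L').2 hL'
    have h3 : Nat.card Yt ≤ Nat.card Y := Subgroup.card_le_card_group Yt
    have h4 : 0 < Nat.card (Yt ⧸ L') := Nat.card_pos
    calc Nat.card (Yt ⧸ L') < Nat.card (Yt ⧸ L') * Nat.card L' := by nlinarith
      _ = Nat.card Yt := h1.symm
      _ ≤ Nat.card Y := h3
  · have h1 : q.ker ≤ T.subgroupOf U := by
      intro x hx
      have h2 : (x : Γ) ∈ M := (hM x).2 (by rw [MonoidHom.mem_ker.1 hx]; exact L.one_mem)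
      exact Subgroup.mem_subgroupOf.2 (hMT h2)
    exact (Subgroup.index_map_eq _ hq h1).symm

end Pool.Agent.H80.FI
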